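import Pool.Agent.MP_fd3eaf_lc.Mg.Up_Main

namespace Pool.Agent.Results.MP_fd3eaf_lc.Equicon

open Pool.Agent.MP_fd3eaf_lc Pool.Agent.Lib.Forcing

/-- Boldface `Σ_3` absoluteness of `H(ω₁)` for stationary-preserving forcing is equiconsistent with
sharps for all sets and a `Σ_2`-reflecting cardinal: the axiom gives an inner model of
the large cardinals, and the large cardinals give a generic extension that satisfies the axiom for
all set forcing. -/
theorem result : (Abs3 → ∃ M : Set ZFSet.{0}, Target M) ∧
    (Target Set.univ → ∃ (B : Type) (_ : CompleteBooleanAlgebra B),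
      Nonempty (Ult B) ∧ (∀ U : Ult B, ZFC U.E) ∧ AbsIn B) :=
  ⟨main, Up.upper⟩

end Pool.Agent.Results.MP_fd3eaf_lc.Equicon
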